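import Pool.Agent.H802U.Grp

/-!
# The orthogonal Lie algebra of dimension `2 n + 1` and the symplectic Lie algebra of dimension `2 n`
-/

set_option autoImplicit false
set_option linter.unusedSectionVars false

namespace Pool.Agent.H802T

open Module

variable {K : Type} [Field K] [CharZero K] {Γ : Type} [Group Γ]

section idem

variable {V : Type} [AddCommGroup V] [Module K V] [FiniteDimensional K V]

theorem trace_idem {e : End K V} (he : e * e = e) : ∃ r : ℕ, LinearMap.trace K V e = r :=
  ⟨_, (LinearMap.IsIdempotentElem.isProj_range e he).trace⟩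

/-- The trace of the square of an operator with eigenvalues `0`, `±1`, `±2`. -/
theorem trace_sq_nat {X : End K V} (hX : X ^ 5 - (5 : K) • X ^ 3 + (4 : K) • X = 0) :
    ∃ r : ℕ, LinearMap.trace K V (X * X) = r := by
  have h5 : X ^ 5 = (5 : K) • X ^ 3 - (4 : K) • X := by
    rw [← sub_eq_zero, ← hX]
    abel
  have h6 : X ^ 6 = (5 : K) • X ^ 4 - (4 : K) • X ^ 2 := by
    rw [pow_succ X 5, h5, sub_mul, smul_mul_assoc, smul_mul_assoc, ← pow_succ, ← pow_two]
  have h7 : X ^ 7 = (5 : K) • X ^ 5 - (4 : K) • X ^ 3 := by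
    rw [pow_succ X 6, h6, sub_mul, smul_mul_assoc, smul_mul_assoc, ← pow_succ, ← pow_succ]
  have h8 : X ^ 8 = (5 : K) • X ^ 6 - (4 : K) • X ^ 4 := by
    rw [pow_succ X 7, h7, sub_mul, smul_mul_assoc, smul_mul_assoc, ← pow_succ, ← pow_succ]
  have key : ∀ a b c d : K, (a • X + b • X ^ 2 + c • X ^ 3 + d • X ^ 4) *
      (a • X + b • X ^ 2 + c • X ^ 3 + d • X ^ 4) =
      (a * a) • X ^ 2 + (2 * a * b) • X ^ 3 + (2 * a * c + b * b) • X ^ 4 +
        (2 * a * d + 2 * b * c) • X ^ 5 + (2 * b * d + c * c) • X ^ 6 + (2 * c * d) • X ^ 7 +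
        (d * d) • X ^ 8 := by
    intro a b c d
    simp only [add_mul, mul_add, smul_mul_smul_comm]
    have e1 : X * X = X ^ 2 := (pow_two X).symm
    have e2 : X * X ^ 2 = X ^ 3 := (pow_succ' X 2).symm
    have e3 : X * X ^ 3 = X ^ 4 := (pow_succ' X 3).symm
    have e4 : X * X ^ 4 = X ^ 5 := (pow_succ' X 4).symm
    have e2' : X ^ 2 * X = X ^ 3 := (pow_succ X 2).symm
    have e3' : X ^ 3 * X = X ^ 4 := (pow_succ X 3).symm
    have e4' : X ^ 4 * X = X ^ 5 := (pow_succ X 4).symm
    simp only [e1, e2, e3, e4, e2', e3', e4', ← pow_add]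
    module
  have mk : ∀ a b c d : K, (a • X + b • X ^ 2 + c • X ^ 3 + d • X ^ 4) *
      (a • X + b • X ^ 2 + c • X ^ 3 + d • X ^ 4) = a • X + b • X ^ 2 + c • X ^ 3 + d • X ^ 4 →
      ∃ r : ℕ, LinearMap.trace K V (a • X + b • X ^ 2 + c • X ^ 3 + d • X ^ 4) = r :=
    fun a b c d h => trace_idem h
  have red : ∀ a b c d : K, (a • X + b • X ^ 2 + c • X ^ 3 + d • X ^ 4) *
      (a • X + b • X ^ 2 + c • X ^ 3 + d • X ^ 4) =
      (-4 * (2 * a * d + 2 * b * c) - 20 * (2 * c * d)) • X +
      (a * a - 4 * (2 * b * d + c * c) - 20 * (d * d)) • X ^ 2 +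
      (2 * a * b + 5 * (2 * a * d + 2 * b * c) + 21 * (2 * c * d)) • X ^ 3 +
      (2 * a * c + b * b + 5 * (2 * b * d + c * c) + 21 * (d * d)) • X ^ 4 := by
    intro a b c d
    rw [key, h8, h7, h6, h5]
    module
  obtain ⟨r1, hr1⟩ := mk (-(6 : K)⁻¹ * (-4)) (-(6 : K)⁻¹ * (-4)) (-(6 : K)⁻¹) (-(6 : K)⁻¹) (by
    rw [red]
    congr 1
    · congr 1
      · congr 1
        · congr 1
          norm_num
        · congr 1
          norm_num
      · congr 1
        norm_num
    · congr 1
      norm_num)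
  obtain ⟨r2, hr2⟩ := mk ((6 : K)⁻¹ * (-4)) (-(6 : K)⁻¹ * (-4)) ((6 : K)⁻¹) (-(6 : K)⁻¹) (by
    rw [red]
    congr 1
    · congr 1
      · congr 1
        · congr 1
          norm_num
        · congr 1
          norm_num
      · congr 1
        norm_num
    · congr 1
      norm_num)
  obtain ⟨r3, hr3⟩ := mk ((24 : K)⁻¹ * (-2)) ((24 : K)⁻¹ * (-1)) ((24 : K)⁻¹ * 2) ((24 : K)⁻¹) (by
    rw [red]
    congr 1
    · congr 1
      · congr 1
        · congr 1
          norm_num
        · congr 1
          norm_num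
      · congr 1
        norm_num
    · congr 1
      norm_num)
  obtain ⟨r4, hr4⟩ := mk ((24 : K)⁻¹ * 2) ((24 : K)⁻¹ * (-1)) ((24 : K)⁻¹ * (-2)) ((24 : K)⁻¹) (by
    rw [red]
    congr 1
    · congr 1
      · congr 1
        · congr 1
          norm_num
        · congr 1
          norm_num
      · congr 1
        norm_num
    · congr 1
      norm_num)
  refine ⟨r1 + r2 + 4 * r3 + 4 * r4, ?_⟩
  push_cast
  rw [← hr1, ← hr2, ← hr3, ← hr4]
  simp only [map_add, map_smul, smul_eq_mul, ← pow_two]
  ring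

end idem

variable {P Q : PRep K Γ}

/-- the elements of the orthogonal Lie algebra -/
noncomputable def PRep.wedge (P : PRep K Γ) (hs : P.sign = 1) (x : P.V) :
    P.V →ₗ[K] ↥P.skew where
  toFun y := ⟨(P.form x).smulRight y - (P.form y).smulRight x, P.mem_skew.2 fun z t => by
    have h1 : ∀ a b, P.form a b = P.form b a := fun a b => by
      rw [P.symm, hs, Units.val_one, Int.cast_one, one_mul]
    simp only [LinearMap.sub_apply, LinearMap.smulRight_apply, map_sub, map_smul,
      LinearMap.smul_apply, smul_eq_mul]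
    rw [h1 z y, h1 z x]
    ring⟩
  map_add' y y' := by
    apply Subtype.ext
    apply LinearMap.ext
    intro z
    simp only [LinearMap.sub_apply, LinearMap.smulRight_apply, map_add, LinearMap.add_apply,
      smul_add, add_smul, Submodule.coe_add]
    abel
  map_smul' r y := by
    apply Subtype.ext
    apply LinearMap.ext
    intro z
    simp only [LinearMap.sub_apply, LinearMap.smulRight_apply, map_smul, LinearMap.smul_apply,
      smul_eq_mul, Submodule.coe_smul, RingHom.id_apply, smul_sub, smul_smul]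
    rw [mul_comm (P.form x z) r]

theorem PRep.wedge_apply (hs : P.sign = 1) (x y z : P.V) :
    (P.wedge hs x y).1 z = P.form x z • y - P.form y z • x := rfl

theorem PRep.adS_wedge (hs : P.sign = 1) {x : P.V} {X : ↥P.skew} (hx : X.1 x = 0) (y : P.V) :
    P.adS X (P.wedge hs x y) = P.wedge hs x (X.1 y) := by
  apply Subtype.ext
  apply LinearMap.ext
  intro z
  change X.1 ((P.wedge hs x y).1 z) - (P.wedge hs x y).1 (X.1 z) = _
  rw [P.wedge_apply, P.wedge_apply, P.wedge_apply, map_sub, map_smul, map_smul, hx, smul_zero,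
    sub_zero]
  have h1 := P.mem_skew.1 X.2 x z
  rw [hx, map_zero, LinearMap.zero_apply, zero_add] at h1
  have h2 := P.mem_skew.1 X.2 y z
  rw [h1, zero_smul, zero_sub, eq_neg_of_add_eq_zero_right h2, neg_smul, neg_neg]

theorem PRep.det_star (Z : End K P.V) : LinearMap.det (P.star Z) = LinearMap.det Z := by
  have h1 := LinearMap.det_conj (Module.Dual.transpose (R := K) Z) P.du.symm
  change LinearMap.det (P.du.symm.toLinearMap ∘ₗ Module.Dual.transpose (R := K) Z ∘ₗ
    P.du.toLinearMap) = _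
  rw [LinearEquiv.symm_symm] at h1
  rw [h1]
  exact LinearMap.det_dualMap Z

theorem PRep.exists_ker (hodd : Odd P.dim) (X : ↥P.skew) : ∃ x : P.V, x ≠ 0 ∧ X.1 x = 0 := by
  have h1 := P.det_star X.1
  rw [P.mem_skew_star.1 X.2, ← neg_one_smul K X.1, LinearMap.det_smul] at h1
  change (-1 : K) ^ P.dim * _ = _ at h1
  rw [hodd.neg_one_pow] at h1
  have h2 : LinearMap.det X.1 = 0 := by
    have h3 : (2 : K) * LinearMap.det X.1 = 0 := by linear_combination -h1
    exact (mul_eq_zero.1 h3).resolve_left two_ne_zero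
  obtain ⟨x, hx, hx0⟩ := Submodule.exists_mem_ne_zero_of_ne_bot
    (LinearMap.bot_lt_ker_of_det_eq_zero h2).ne'
  exact ⟨x, hx0, LinearMap.mem_ker.1 hx⟩

/-- an operator with square proportional to a wedge -/
theorem PRep.eq_zero_of_wedge (hs : P.sign = 1) {x : P.V} (hx : x ≠ 0) {q : End K P.V}
    (hq : q ∈ P.skew) (h : ∀ y, P.wedge hs x (q y) = 0) : q = 0 := by
  have hsym : ∀ a b, P.form a b = P.form b a := fun a b => by
    rw [P.symm, hs, Units.val_one, Int.cast_one, one_mul]
  obtain ⟨z, hz⟩ : ∃ z, P.form x z ≠ 0 := by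
    by_contra hcon
    push Not at hcon
    exact hx (P.nondeg x hcon)
  have h1 : ∀ y t, P.form x t • q y = P.form (q y) t • x := by
    intro y t
    have h2 := congrArg (fun w : ↥P.skew => w.1 t) (h y)
    change (P.wedge hs x (q y)).1 t = 0 at h2
    rw [P.wedge_apply, sub_eq_zero] at h2
    exact h2
  have h2 : ∀ y, P.form (q y) y = 0 := by
    intro y
    have h3 := P.mem_skew.1 hq y y
    rw [hsym y (q y)] at h3
    have h4 : (2 : K) * P.form (q y) y = 0 := by linear_combination h3
    exact (mul_eq_zero.1 h4).resolve_left two_ne_zero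
  have h3 : ∀ y y', P.form (q y) y' + P.form (q y') y = 0 := by
    intro y y'
    have h4 := h2 (y + y')
    rw [map_add, map_add, map_add, LinearMap.add_apply, LinearMap.add_apply, h2, h2] at h4
    linear_combination h4
  have h4 : ∀ y, P.form (q y) z = 0 := by
    intro y
    have h5 := congrArg (fun w => P.form w z) (h1 z z)
    have h6 := congrArg (fun w => P.form w y) (h1 z z)
    simp only [map_smul, LinearMap.smul_apply, smul_eq_mul] at h5 h6
    rw [h2, mul_zero] at h5
    rw [h2, zero_mul] at h6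
    have h7 := (mul_eq_zero.1 h6).resolve_left hz
    have h8 := h3 y z
    rw [h7, add_zero] at h8
    exact h8
  apply LinearMap.ext
  intro y
  have h5 := h1 y z
  rw [h4, zero_smul] at h5
  exact (smul_eq_zero.1 h5).resolve_left hz

theorem pow_adS_wedge (hs : P.sign = 1) {x : P.V} {X : ↥P.skew} (hx : X.1 x = 0) (n : ℕ)
    (y : P.V) : (P.adS X ^ n) (P.wedge hs x y) = P.wedge hs x ((X.1 ^ n) y) := by
  induction n generalizing y with
  | zero => rw [pow_zero, pow_zero, Module.End.one_apply, Module.End.one_apply]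
  | succ n ih =>
    rw [pow_succ, pow_succ, Module.End.mul_apply, Module.End.mul_apply, P.adS_wedge hs hx, ih]

theorem skew_pow_odd {X : End K P.V} (hX : X ∈ P.skew) (n : ℕ) : X ^ (2 * n + 1) ∈ P.skew := by
  rw [P.mem_skew_star] at hX ⊢
  have h1 : ∀ m, P.star (X ^ m) = (-1 : K) ^ m • X ^ m := by
    intro m
    induction m with
    | zero => rw [pow_zero, pow_zero, P.star_one, one_smul]
    | succ m ih =>
      rw [pow_succ, P.star_mul, ih, hX, mul_smul_comm, neg_mul, ← pow_succ', pow_succ (-1 : K),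
        mul_neg_one, neg_smul, smul_neg, pow_succ X]
  rw [h1, (odd_two_mul_add_one n).neg_one_pow, neg_one_smul]

/-- an element of the orthogonal Lie algebra -/
theorem PRep.annihilate (hs : P.sign = 1) (hodd : Odd P.dim) {X : ↥P.skew}
    (h : (P.adS X) ^ 5 - (5 : K) • (P.adS X) ^ 3 + (4 : K) • P.adS X = 0) :
    X.1 ^ 5 - (5 : K) • X.1 ^ 3 + (4 : K) • X.1 = 0 := by
  obtain ⟨x, hx0, hx⟩ := P.exists_ker hodd X
  refine P.eq_zero_of_wedge hs hx0 ?_ fun y => ?_
  · refine Submodule.add_mem _ (Submodule.sub_mem _ (skew_pow_odd X.2 2)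
      (Submodule.smul_mem _ _ (skew_pow_odd X.2 1))) (Submodule.smul_mem _ _ X.2)
  · have h1 := congrArg (fun A => A (P.wedge hs x y)) h
    simp only [LinearMap.add_apply, LinearMap.sub_apply, LinearMap.smul_apply,
      LinearMap.zero_apply, pow_adS_wedge hs hx, P.adS_wedge hs hx] at h1
    have h2 : (X.1 ^ 5 - (5 : K) • X.1 ^ 3 + (4 : K) • X.1) y =
        (X.1 ^ 5) y - (5 : K) • (X.1 ^ 3) y + (4 : K) • X.1 y := rfl
    rw [h2, map_add, map_sub, map_smul, map_smul, h1]

/-- **The orthogonal Lie algebra of dimension `2 n + 1` is not isomorphic to the symplectic Lie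
algebra of dimension `2 n` if `n ≥ 3`.** -/
theorem LieIso.bc_false (f : LieIso P Q) (hs : P.sign = 1) (hs' : Q.sign = -1)
    (hd : P.dim = Q.dim + 1) (hev : Even Q.dim) (h6 : 6 ≤ Q.dim) : False := by
  -- an element of the symplectic Lie algebra
  have hsym : ∀ a b, Q.form a b = -Q.form b a := fun a b => by
    rw [Q.symm, hs', Units.val_neg, Units.val_one, Int.cast_neg, Int.cast_one, neg_one_mul]
  have halt : ∀ a, Q.form a a = 0 := fun a => by
    have h1 := hsym a a
    have h2 : (2 : K) * Q.form a a = 0 := by linear_combination h1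
    exact (mul_eq_zero.1 h2).resolve_left two_ne_zero
  obtain ⟨u, hu⟩ : ∃ u : Q.V, u ≠ 0 := by
    by_contra hcon
    push Not at hcon
    have h1 : Module.finrank K Q.V = 0 := by
      rw [Module.finrank_eq_zero_iff]
      intro x
      exact ⟨1, one_ne_zero, by rw [hcon x, smul_zero]⟩
    change 6 ≤ Module.finrank K Q.V at h6
    omega
  obtain ⟨w0, hw0⟩ : ∃ w, Q.form u w ≠ 0 := by
    by_contra hcon
    push Not at hcon
    exact hu (Q.nondeg u hcon)
  obtain ⟨w, hw⟩ : ∃ w, Q.form u w = 1 :=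
    ⟨(Q.form u w0)⁻¹ • w0, by rw [map_smul, smul_eq_mul, inv_mul_cancel₀ hw0]⟩
  set D : End K Q.V := (Q.form u).smulRight w + (Q.form w).smulRight u with hD
  have hDa : ∀ z, D z = Q.form u z • w + Q.form w z • u := fun z => rfl
  have hDm : D ∈ Q.skew := by
    rw [Q.mem_skew]
    intro z t
    rw [hDa, hDa]
    simp only [map_add, map_smul, LinearMap.add_apply, LinearMap.smul_apply, smul_eq_mul]
    rw [hsym z w, hsym z u]
    ring
  have hDu : D u = -u := by
    rw [hDa, halt, zero_smul, zero_add, hsym w u, hw, neg_one_smul]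
  have hDw : D w = w := by
    rw [hDa, halt, zero_smul, add_zero, hw, one_smul]
  have hD2 : ∀ z, D (D z) = Q.form u z • w - Q.form w z • u := by
    intro z
    rw [hDa z, map_add, map_smul, map_smul, hDu, hDw, smul_neg, sub_eq_add_neg]
  have hD3 : D * D * D = D := by
    apply LinearMap.ext
    intro z
    change D (D (D z)) = D z
    rw [hD2, hDa z]
    simp only [map_add, map_smul, smul_eq_mul, halt, hw, hsym w u]
    module
  have htr : LinearMap.trace K Q.V (D * D) = 2 := by
    have h1 : D * D = (Q.form u).smulRight w - (Q.form w).smulRight u := by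
      apply LinearMap.ext
      intro z
      exact hD2 z
    rw [h1, map_sub]
    have h2 : ∀ (g : Module.Dual K Q.V) (v : Q.V), LinearMap.trace K Q.V (g.smulRight v) = g v :=
      fun g v => by
        have h3 := LinearMap.trace_eq_contract_apply (R := K) (M := Q.V) (g ⊗ₜ[K] v)
        rw [contractLeft_apply] at h3
        rw [← h3]
        rfl
    rw [h2, h2, hw, hsym w u, hw]
    norm_num
  -- the adjoint operator
  set X' : ↥Q.skew := ⟨D, hDm⟩ with hX'
  have hp : (Q.adS X') ^ 5 - (5 : K) • (Q.adS X') ^ 3 + (4 : K) • Q.adS X' = 0 := by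
    apply LinearMap.ext
    intro Z
    apply Subtype.ext
    have ha : ∀ Z : ↥Q.skew, (Q.adS X' Z).1 = D * Z.1 - Z.1 * D := fun Z => rfl
    have e1 : D * (D * D) = D := by rw [← mul_assoc, hD3]
    have e2 : ∀ Z : End K Q.V, D * (D * (D * Z)) = D * Z := fun Z => by
      rw [← mul_assoc, ← mul_assoc, hD3]
    have h3 : ((Q.adS X') ^ 3) Z = Q.adS X' (Q.adS X' (Q.adS X' Z)) := by
      rw [pow_succ, pow_succ, pow_one]
      rfl
    have h5 : ((Q.adS X') ^ 5) Z =
        Q.adS X' (Q.adS X' (Q.adS X' (Q.adS X' (Q.adS X' Z)))) := by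
      rw [pow_succ, pow_succ, pow_succ, pow_succ, pow_one]
      rfl
    have g3 : (Q.adS X' (Q.adS X' (Q.adS X' Z))).1 =
        D * Z.1 - (3 : K) • (D * (D * (Z.1 * D))) + (3 : K) • (D * (Z.1 * (D * D))) -
          Z.1 * D := by
      rw [ha, ha, ha]
      simp only [mul_sub, sub_mul, mul_assoc, e1, e2]
      module
    have g5 : ∀ Y : ↥Q.skew, Y.1 = D * Z.1 - (3 : K) • (D * (D * (Z.1 * D))) +
        (3 : K) • (D * (Z.1 * (D * D))) - Z.1 * D → (Q.adS X' (Q.adS X' Y)).1 =
        D * Z.1 - (15 : K) • (D * (D * (Z.1 * D))) + (15 : K) • (D * (Z.1 * (D * D))) -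
          Z.1 * D := by
      intro Y hY
      rw [ha, ha, hY]
      simp only [mul_sub, sub_mul, mul_add, add_mul, mul_assoc, e1, e2, mul_smul_comm,
        smul_mul_assoc]
      module
    change (((Q.adS X') ^ 5) Z).1 - (5 : K) • (((Q.adS X') ^ 3) Z).1 +
      (4 : K) • (Q.adS X' Z).1 = 0
    rw [h5, h3, g5 _ g3, g3, ha]
    module
  set X : ↥P.skew := f.φ.symm X' with hX
  have hfX : f.φ X = X' := LinearEquiv.apply_symm_apply _ _
  have hq : (P.adS X) ^ 5 - (5 : K) • (P.adS X) ^ 3 + (4 : K) • P.adS X = 0 := by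
    have h1 : ∀ n Z, f.φ ((P.adS X ^ n) Z) = (Q.adS X' ^ n) (f.φ Z) := by
      intro n
      induction n with
      | zero => intro Z; rfl
      | succ n ih =>
        intro Z
        rw [pow_succ, pow_succ, Module.End.mul_apply, Module.End.mul_apply, ih, f.br, hfX]
    apply LinearMap.ext
    intro Z
    apply f.φ.injective
    have h2 := congrArg (fun A => A (f.φ Z)) hp
    simp only [LinearMap.add_apply, LinearMap.sub_apply, LinearMap.smul_apply,
      LinearMap.zero_apply] at h2 ⊢
    rw [map_add, map_sub, map_smul, map_smul, h1, h1, f.br, hfX, h2, map_zero]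
  obtain ⟨r, hr⟩ := trace_sq_nat (P.annihilate hs (by rw [hd]; exact hev.add_one) hq)
  have h1 := f.trace2 X X
  rw [Q.quad, P.quad, hfX, hr] at h1
  change ((Q.dim : K) - 2 * ((Q.sign : ℤ) : K)) * LinearMap.trace K Q.V (D * D) =
    ((P.dim : K) - 2 * ((P.sign : ℤ) : K)) * r at h1
  rw [htr, hs, hs', hd, Units.val_one, Units.val_neg, Units.val_one] at h1
  push_cast at h1
  have h2 : ((2 * Q.dim + 4 + r : ℕ) : K) = ((Q.dim * r : ℕ) : K) := by
    push_cast
    linear_combination h1
  have h3 : 2 * Q.dim + 4 + r = Q.dim * r := by exact_mod_cast h2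
  obtain ⟨n, hn⟩ := hev
  have h4 : r < 4 := by
    by_contra hcon
    push Not at hcon
    nlinarith
  interval_cases r <;> omega

end Pool.Agent.H802T
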