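import Pool.Agent.H802U.Psi
import Pool.Agent.H802T.Dim

/-!
# The Goursat lemma for big representations which are not isomorphic up to scalars
-/

set_option autoImplicit false
set_option linter.unusedSectionVars false

namespace Pool.Agent.H802T

open Module Finset Function

variable {K : Type} [Field K] {Γ : Type} [Group Γ]

theorem PRep.ne_two [CharZero K] {P : PRep K Γ} (hbig : P.Big) :
    (P.dim : ℤ) ≠ 2 * (P.sign : ℤ) := by
  intro h
  obtain ⟨X, hX, Y, hY, hXY⟩ := hbig.1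
  have h1 := P.finrank_skew
  change (finrank K P.V : ℤ) = 2 * (P.sign : ℤ) at h
  rw [h] at h1
  have h3 : (P.sign : ℤ) * (P.sign : ℤ) = 1 := Int.units_coe_mul_self P.sign
  have h2 : finrank K P.skew = 1 := by
    have : (finrank K P.skew : ℤ) = 1 := by nlinarith
    exact_mod_cast this
  obtain ⟨v, -, hv⟩ := finrank_eq_one_iff'.1 h2
  apply hXY
  obtain ⟨a, ha⟩ := hv ⟨X, hX⟩
  obtain ⟨b, hb⟩ := hv ⟨Y, hY⟩
  have ha' : a • v.1 = X := congrArg Subtype.val ha
  have hb' : b • v.1 = Y := congrArg Subtype.val hb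
  rw [← ha', ← hb', smul_mul_smul_comm, smul_mul_smul_comm, mul_comm]

/-- An isomorphism of the Lie algebras which is compatible with the groups gives an isomorphism
of the representations up to scalars. -/
theorem LieIso.iso [CharZero K] {P Q : PRep K Γ} (f : LieIso P Q) (hP : P.Perf) (hQ : Q.Perf)
    (hdim : P.dim = Q.dim) (hsign : P.sign = Q.sign) (h2 : (P.dim : ℤ) ≠ 2 * (P.sign : ℤ))
    (h8 : (P.dim : ℤ) ≠ 8 * (P.sign : ℤ))
    (hf : ∀ g (X : ↥P.skew), (f.φ ⟨_, P.conj_skew g X.2⟩).1 = Q.ρ g * (f.φ X).1 * Q.ρ g⁻¹) :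
    Proportional P Q := by
  obtain ⟨u, hu⟩ := f.exists_equiv hP hQ hdim hsign h2 h8
  refine ⟨u, fun g => ?_⟩
  set w : End K P.V := u.symm.toLinearMap ∘ₗ Q.ρ g⁻¹ ∘ₗ u.toLinearMap ∘ₗ P.ρ g with hw
  have hwa : ∀ x, w x = u.symm (Q.ρ g⁻¹ (u (P.ρ g x))) := fun x => rfl
  have hcomm : ∀ X : ↥P.skew, w * X.1 = X.1 * w := by
    intro X
    apply LinearMap.ext
    intro x
    rw [Module.End.mul_apply, Module.End.mul_apply, hwa, hwa]
    have h1 := hu ⟨_, P.conj_skew g X.2⟩ (P.ρ g x)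
    rw [hf] at h1
    change u (P.ρ g (X.1 (P.ρ g⁻¹ (P.ρ g x)))) =
      Q.ρ g ((f.φ X).1 (Q.ρ g⁻¹ (u (P.ρ g x)))) at h1
    rw [P.rinv'] at h1
    rw [h1, Q.rinv', LinearEquiv.symm_apply_eq, hu, LinearEquiv.apply_symm_apply]
  obtain ⟨c, hc⟩ := hP.scalar hcomm
  refine ⟨c, fun x => ?_⟩
  have h1 := hc x
  rw [hwa, LinearEquiv.symm_apply_eq, map_smul] at h1
  have h3 := congrArg (Q.ρ g) h1
  rw [Q.rinv, map_smul] at h3
  exact h3

variable [CharZero K] [IsAlgClosed K] {N : Type} [Fintype N] [DecidableEq N] {F : N → PRep K Γ}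

/-- **The criterion for big representations.** -/
theorem van_single_ne_big {o j : N} (hbig : (F o).Big) (hyp : (F o).Hyperbolic)
    (hbj : (F j).Big) (hdim : (F o).dim = (F j).dim) (hsign : (F o).sign = (F j).sign)
    (h8 : ((F o).dim : ℤ) ≠ 8 * ((F o).sign : ℤ)) (hiso : ¬ Proportional (F o) (F j)) :
    van F o {j} ≠ ⊥ := by
  intro hbot
  have h0 : van F o ∅ = (F o).skew := (van_big hbig).resolve_left (van_ne_bot hyp)
  have hz : ∀ Y ∈ LieP F, Y j = 0 → Y o = 0 := by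
    intro Y hY hYj
    have h1 : Y o ∈ van F o {j} := ⟨Y, hY, rfl, fun l hl => by
      rw [Finset.mem_singleton] at hl
      subst hl
      exact hYj⟩
    rwa [hbot, Submodule.mem_bot] at h1
  have hj0 : van F j ∅ = (F j).skew := by
    refine (van_big hbj).resolve_left fun h2 => van_ne_bot hyp ?_
    rw [eq_bot_iff]
    rintro X ⟨Y, hY, rfl, -⟩
    rw [Submodule.mem_bot]
    refine hz Y hY ?_
    have h3 : Y j ∈ van F j ∅ := ⟨Y, hY, rfl, fun l hl => absurd hl (Finset.notMem_empty l)⟩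
    rwa [h2, Submodule.mem_bot] at h3
  have hj1 : van F j {o} = ⊥ := by
    refine (van_big hbj).resolve_right fun h1 => van_ne_bot hyp ?_
    rw [eq_bot_iff]
    rintro X ⟨Y, hY, rfl, -⟩
    rw [Submodule.mem_bot]
    have h3 : Y j ∈ van F j {o} := by
      rw [h1]
      exact hY.1 j
    obtain ⟨Y', hY', hYY, h4⟩ := h3
    have h5 := hz (Y - Y') (Submodule.sub_mem _ hY hY') (by
      rw [Pi.sub_apply, hYY, sub_self])
    rw [Pi.sub_apply, h4 o (Finset.mem_singleton_self o), sub_zero] at h5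
    exact h5
  have hz' : ∀ Y ∈ LieP F, Y o = 0 → Y j = 0 := by
    intro Y hY hYo
    have h1 : Y j ∈ van F j {o} := ⟨Y, hY, rfl, fun l hl => by
      rw [Finset.mem_singleton] at hl
      subst hl
      exact hYo⟩
    rwa [hj1, Submodule.mem_bot] at h1
  have hUo : ∀ X : ↥(F o).skew, ∃ Y ∈ LieP F, Y o = X.1 := by
    intro X
    have h1 : X.1 ∈ van F o ∅ := by
      rw [h0]
      exact X.2
    obtain ⟨Y, hY, hYX, -⟩ := h1
    exact ⟨Y, hY, hYX⟩
  have hUj : ∀ X : ↥(F j).skew, ∃ Y ∈ LieP F, Y j = X.1 := by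
    intro X
    have h1 : X.1 ∈ van F j ∅ := by
      rw [hj0]
      exact X.2
    obtain ⟨Y, hY, hYX, -⟩ := h1
    exact ⟨Y, hY, hYX⟩
  choose Yo hYo hYo' using hUo
  have huniq : ∀ Y ∈ LieP F, ∀ Y' ∈ LieP F, Y o = Y' o → Y j = Y' j := by
    intro Y hY Y' hY' h
    have h1 := hz' (Y - Y') (Submodule.sub_mem _ hY hY') (by rw [Pi.sub_apply, h, sub_self])
    rwa [Pi.sub_apply, sub_eq_zero] at h1
  let φ0 : ↥(F o).skew →ₗ[K] ↥(F j).skew :=
    { toFun := fun X => ⟨Yo X j, (hYo X).1 j⟩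
      map_add' := fun X X' => Subtype.ext (huniq _ (hYo _) _
        (Submodule.add_mem _ (hYo X) (hYo X')) (by
          rw [Pi.add_apply, hYo', hYo', hYo']
          rfl))
      map_smul' := fun r X => Subtype.ext (huniq _ (hYo _) _
        (Submodule.smul_mem _ r (hYo X)) (by
          rw [Pi.smul_apply, hYo', hYo']
          rfl)) }
  have hφ0 : ∀ Y (hY : Y ∈ LieP F), (φ0 ⟨Y o, hY.1 o⟩).1 = Y j := by
    intro Y hY
    exact huniq _ (hYo _) _ hY (hYo' _)
  have hbij : Function.Bijective φ0 := by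
    constructor
    · rw [← LinearMap.ker_eq_bot, eq_bot_iff]
      intro X hX
      rw [LinearMap.mem_ker] at hX
      rw [Submodule.mem_bot]
      have h1 := hz _ (hYo X) (congrArg Subtype.val hX)
      rw [hYo'] at h1
      exact Subtype.ext h1
    · intro X'
      obtain ⟨Y, hY, hYX⟩ := hUj X'
      exact ⟨⟨Y o, hY.1 o⟩, Subtype.ext ((hφ0 Y hY).trans hYX)⟩
  let f : LieIso (F o) (F j) :=
    { φ := LinearEquiv.ofBijective φ0 hbij
      br := fun X Y => by
        apply Subtype.ext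
        have h1 := hφ0 _ (LieP_bracket (hYo X) (hYo Y))
        have h2 : (⟨(Yo X * Yo Y - Yo Y * Yo X) o, (LieP_bracket (hYo X) (hYo Y)).1 o⟩ :
            ↥(F o).skew) = (F o).adS X Y := by
          apply Subtype.ext
          change Yo X o * Yo Y o - Yo Y o * Yo X o = X.1 * Y.1 - Y.1 * X.1
          rw [hYo', hYo']
        rw [h2] at h1
        exact h1 }
  apply hiso
  refine f.iso (PRep.perf_of_big hbig) (PRep.perf_of_big hbj) hdim hsign (PRep.ne_two hbig) h8 ?_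
  intro g X
  have h1 := hφ0 _ (LieP_conj (hYo X) g)
  have h2 : (⟨(F o).ρ g * Yo X o * (F o).ρ g⁻¹, (LieP_conj (hYo X) g).1 o⟩ :
      ↥(F o).skew) = ⟨_, (F o).conj_skew g X.2⟩ := by
    apply Subtype.ext
    change (F o).ρ g * Yo X o * (F o).ρ g⁻¹ = (F o).ρ g * X.1 * (F o).ρ g⁻¹
    rw [hYo']
  rw [h2] at h1
  exact h1

end Pool.Agent.H802T
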