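import Pool.Agent.H802U.Nondeg

/-!
# Isomorphisms of orthogonal and symplectic Lie algebras
-/

set_option autoImplicit false
set_option linter.unusedSectionVars false

namespace Pool.Agent.H802T

open Module

variable {K : Type} [Field K] [CharZero K] {Γ : Type} [Group Γ] {P Q : PRep K Γ}

/-- An isomorphism of the Lie algebras. -/
structure LieIso (P Q : PRep K Γ) where
  /-- the map -/
  φ : ↥P.skew ≃ₗ[K] ↥Q.skew
  br : ∀ X Y, φ (P.adS X Y) = Q.adS (φ X) (φ Y)

namespace LieIso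

variable (f : LieIso P Q)

theorem br' (X Y : ↥P.skew) : ((f.φ (P.adS X Y) : ↥Q.skew) : End K Q.V) =
    (f.φ X).1 * (f.φ Y).1 - (f.φ Y).1 * (f.φ X).1 := by
  rw [f.br]
  rfl

theorem conj (X : ↥P.skew) : f.φ.conj (P.adS X) = Q.adS (f.φ X) := by
  apply LinearMap.ext
  intro Z
  rw [LinearEquiv.conj_apply_apply, f.br, LinearEquiv.apply_symm_apply]

theorem trace2 (X Y : ↥P.skew) :
    LinearMap.trace K ↥Q.skew (Q.adS (f.φ X) * Q.adS (f.φ Y)) =
      LinearMap.trace K ↥P.skew (P.adS X * P.adS Y) := by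
  rw [← f.conj, ← f.conj, ← LinearMap.trace_conj' (P.adS X * P.adS Y) f.φ]
  congr 1
  apply LinearMap.ext
  intro Z
  rw [Module.End.mul_apply, LinearEquiv.conj_apply_apply, LinearEquiv.conj_apply_apply,
    LinearEquiv.conj_apply_apply, LinearEquiv.symm_apply_apply, Module.End.mul_apply]

theorem trace4 (X Y Z W : ↥P.skew) :
    LinearMap.trace K ↥Q.skew (Q.adS (f.φ X) * (Q.adS (f.φ Y) * (Q.adS (f.φ Z) * Q.adS (f.φ W)))) =
      LinearMap.trace K ↥P.skew (P.adS X * (P.adS Y * (P.adS Z * P.adS W))) := by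
  rw [← f.conj, ← f.conj, ← f.conj, ← f.conj,
    ← LinearMap.trace_conj' (P.adS X * (P.adS Y * (P.adS Z * P.adS W))) f.φ]
  congr 1
  apply LinearMap.ext
  intro V
  simp only [Module.End.mul_apply, LinearEquiv.conj_apply_apply, LinearEquiv.symm_apply_apply]

variable (hdim : P.dim = Q.dim) (hsign : P.sign = Q.sign)
  (h2 : (P.dim : ℤ) ≠ 2 * (P.sign : ℤ))

include hdim hsign h2

theorem two (X Y : ↥P.skew) : LinearMap.trace K Q.V ((f.φ X).1 * (f.φ Y).1) =
    LinearMap.trace K P.V (X.1 * Y.1) := by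
  have h1 := f.trace2 X Y
  rw [Q.quad, P.quad, ← hdim, ← hsign] at h1
  refine mul_left_cancel₀ ?_ h1
  intro h0
  apply h2
  rw [sub_eq_zero] at h0
  exact_mod_cast h0

variable (h8 : (P.dim : ℤ) ≠ 8 * (P.sign : ℤ))

include h8

theorem four (X Y Z W : ↥P.skew) :
    LinearMap.trace K Q.V ((f.φ X).1 * ((f.φ Y).1 * ((f.φ Z).1 * (f.φ W).1))) =
      LinearMap.trace K P.V (X.1 * (Y.1 * (Z.1 * W.1))) := by
  have h1 := f.trace4 X Y Z W
  have h3 : ∀ X Y : ↥P.skew, adE X.1 Y.1 = (P.adS X Y).1 := fun X Y => adE_apply _ _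
  have h4 : ∀ X Y : ↥P.skew, adE (f.φ X).1 (f.φ Y).1 = (f.φ (P.adS X Y)).1 := fun X Y => by
    rw [f.br', adE_apply]
  rw [Q.quart, P.quart, ← hdim, ← hsign, f.two hdim hsign h2, f.two hdim hsign h2,
    f.two hdim hsign h2, f.two hdim hsign h2, f.two hdim hsign h2, f.two hdim hsign h2,
    h3, h3, h3, h3, h4, h4, h4, h4, f.two hdim hsign h2, f.two hdim hsign h2] at h1
  have h5 : ((P.dim : K) - 8 * ((P.sign : ℤ) : K)) ≠ 0 := by
    intro h0
    apply h8
    rw [sub_eq_zero] at h0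
    exact_mod_cast h0
  refine mul_left_cancel₀ h5 ?_
  linear_combination h1

end LieIso

/-- the span of the products of two elements -/
theorem PRep.Perf.prod_span (hP : P.Perf) (A : End K P.V) :
    A ∈ Submodule.span K {Z | ∃ X Y : ↥P.skew, Z = X.1 * Y.1} := by
  by_contra hA
  obtain ⟨g, hg, hgA⟩ := Submodule.exists_dual_map_eq_bot_of_notMem hA inferInstance
  obtain ⟨C, hC⟩ := trace_rep g
  apply hg
  have hC0 : C = 0 := hP.nondeg4 fun Z W => by
    rw [← hC]
    have h1 : g (Z.1 * W.1) ∈ (Submodule.span K {Z | ∃ X Y : ↥P.skew, Z = X.1 * Y.1}).map g :=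
      ⟨_, Submodule.subset_span ⟨Z, W, rfl⟩, rfl⟩
    rwa [hgA, Submodule.mem_bot] at h1
  rw [hC, hC0, zero_mul, map_zero]

end Pool.Agent.H802T
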