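import Pool.Agent.H802U.Quart

/-!
# Products of two skew operators span all operators
-/

set_option autoImplicit false
set_option linter.unusedSectionVars false

namespace Pool.Agent.H802T

open Module

section trace

variable {K V : Type} [Field K] [AddCommGroup V] [Module K V] [FiniteDimensional K V]

theorem trace_rank_one (f : Dual K V) (v : V) :
    LinearMap.trace K V (LinearMap.smulRight f v) = f v := by
  have h1 : LinearMap.smulRight f v = dualTensorHom K V V (f ⊗ₜ[K] v) := by
    apply LinearMap.ext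
    intro w
    rw [dualTensorHom_apply, LinearMap.smulRight_apply]
  rw [h1, LinearMap.trace_eq_contract_apply, contractLeft_apply]

theorem trace_nondeg {A : End K V} (h : ∀ Z : End K V, LinearMap.trace K V (A * Z) = 0) :
    A = 0 := by
  apply LinearMap.ext
  intro v
  rw [LinearMap.zero_apply, ← Module.forall_dual_apply_eq_zero_iff K]
  intro f
  have h1 := h (LinearMap.smulRight f v)
  have h2 : A * LinearMap.smulRight f v = LinearMap.smulRight f (A v) := by
    apply LinearMap.ext
    intro w
    rw [Module.End.mul_apply, LinearMap.smulRight_apply, LinearMap.smulRight_apply, map_smul]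
  rw [h2, trace_rank_one] at h1
  exact h1

theorem trace_rep (f : Dual K (End K V)) : ∃ A : End K V, ∀ Z, f Z = LinearMap.trace K V (A * Z) := by
  let T : End K V →ₗ[K] Dual K (End K V) :=
    { toFun := fun A => LinearMap.trace K V ∘ₗ LinearMap.mulLeft K A
      map_add' := fun A B => by
        apply LinearMap.ext
        intro Z
        change LinearMap.trace K V ((A + B) * Z) =
          LinearMap.trace K V (A * Z) + LinearMap.trace K V (B * Z)
        rw [add_mul, map_add]
      map_smul' := fun r A => by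
        apply LinearMap.ext
        intro Z
        change LinearMap.trace K V ((r • A) * Z) = r • LinearMap.trace K V (A * Z)
        rw [smul_mul_assoc, map_smul] }
  have hT : Function.Injective T := by
    intro A B hAB
    rw [← sub_eq_zero]
    refine trace_nondeg fun Z => ?_
    have h1 := congrArg (fun f : Dual K (End K V) => f Z) hAB
    change LinearMap.trace K V (A * Z) = LinearMap.trace K V (B * Z) at h1
    rw [sub_mul, map_sub, h1, sub_self]
  have hS : Function.Surjective T :=
    (LinearMap.injective_iff_surjective_of_finrank_eq_finrank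
      (Subspace.dual_finrank_eq).symm).1 hT
  obtain ⟨A, hA⟩ := hS f
  exact ⟨A, fun Z => by rw [← hA]; rfl⟩

end trace

variable {K : Type} [Field K] {Γ : Type} [Group Γ] (P : PRep K Γ)

/-- Every element of the Lie algebra is a sum of brackets, and the space is not a line. -/
structure PRep.Perf : Prop where
  span : ∀ X : ↥P.skew, X ∈ Submodule.span K {Z | ∃ X Y : ↥P.skew, Z = P.adS X Y}
  two : 2 ≤ finrank K P.V

variable {P}

theorem PRep.Perf.ext (h : P.Perf) {M : Type} [AddCommGroup M] [Module K M]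
    {f g : ↥P.skew →ₗ[K] M} (hfg : ∀ X Y, f (P.adS X Y) = g (P.adS X Y)) (X : ↥P.skew) :
    f X = g X := by
  have h1 := h.span X
  induction h1 using Submodule.span_induction with
  | mem Z hZ =>
    obtain ⟨X, Y, rfl⟩ := hZ
    exact hfg X Y
  | zero => rw [map_zero, map_zero]
  | add x y _ _ hx hy => rw [map_add, map_add, hx, hy]
  | smul r x _ hx => rw [map_smul, map_smul, hx]

theorem PRep.perf_of_big (hbig : P.Big) : P.Perf := by
  obtain ⟨X, hX, Y, hY, hXY⟩ := hbig.1
  have hne : X * Y - Y * X ≠ 0 := fun h => hXY (sub_eq_zero.1 h)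
  refine ⟨fun Z => ?_, ?_⟩
  · set U : Submodule K (End K P.V) :=
      (Submodule.span K {Z | ∃ X Y : ↥P.skew, Z = P.adS X Y}).map P.skew.subtype with hU
    have h1 := hbig.2 U ?_ ?_
    · rcases h1 with h1 | h1
      · exfalso
        apply hne
        have h2 : X * Y - Y * X ∈ U :=
          ⟨P.adS ⟨X, hX⟩ ⟨Y, hY⟩, Submodule.subset_span ⟨_, _, rfl⟩, rfl⟩
        rwa [h1, Submodule.mem_bot] at h2
      · have h2 : (Z : End K P.V) ∈ U := by
          rw [h1]
          exact Z.2
        obtain ⟨Z', hZ', hZZ⟩ := h2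
        rwa [← Subtype.ext hZZ]
    · rintro _ ⟨Z', -, rfl⟩
      exact Z'.2
    · rintro g _ ⟨Z', hZ', rfl⟩
      induction hZ' using Submodule.span_induction with
      | mem Z hZ =>
        obtain ⟨A, B, rfl⟩ := hZ
        refine ⟨P.adS ⟨_, P.conj_skew g A.2⟩ ⟨_, P.conj_skew g B.2⟩,
          Submodule.subset_span ⟨_, _, rfl⟩, ?_⟩
        have h2 : P.ρ g⁻¹ * P.ρ g = 1 := by rw [← map_mul, inv_mul_cancel, map_one]
        change P.ρ g * A.1 * P.ρ g⁻¹ * (P.ρ g * B.1 * P.ρ g⁻¹) -
          P.ρ g * B.1 * P.ρ g⁻¹ * (P.ρ g * A.1 * P.ρ g⁻¹) =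
          P.ρ g * (A.1 * B.1 - B.1 * A.1) * P.ρ g⁻¹
        have h3 : ∀ A B : End K P.V, P.ρ g * A * P.ρ g⁻¹ * (P.ρ g * B * P.ρ g⁻¹) =
            P.ρ g * (A * B) * P.ρ g⁻¹ := by
          intro A B
          calc P.ρ g * A * P.ρ g⁻¹ * (P.ρ g * B * P.ρ g⁻¹) =
              P.ρ g * A * (P.ρ g⁻¹ * P.ρ g) * B * P.ρ g⁻¹ := by simp only [mul_assoc]
            _ = P.ρ g * (A * B) * P.ρ g⁻¹ := by rw [h2, mul_one]; simp only [mul_assoc]
        rw [h3, h3, mul_sub, sub_mul]
      | zero =>
        rw [map_zero, mul_zero, zero_mul]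
        exact Submodule.zero_mem _
      | add x y _ _ hx hy =>
        rw [map_add, mul_add, add_mul]
        exact Submodule.add_mem _ hx hy
      | smul r x _ hx =>
        rw [map_smul, mul_smul_comm, smul_mul_assoc]
        exact Submodule.smul_mem _ _ hx
  · by_contra hlt
    have h1 : finrank K P.V ≤ 1 := by omega
    obtain ⟨v, hv⟩ := finrank_le_one_iff.1 h1
    apply hXY
    apply LinearMap.ext
    intro w
    obtain ⟨c, rfl⟩ := hv w
    obtain ⟨a, ha⟩ := hv (X v)
    obtain ⟨b, hb⟩ := hv (Y v)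
    have e1 : X (Y v) = (b * a) • v := by rw [← hb, map_smul, ← ha, smul_smul]
    have e2 : Y (X v) = (b * a) • v := by rw [← ha, map_smul, ← hb, smul_smul, mul_comm]
    rw [Module.End.mul_apply, Module.End.mul_apply, map_smul, map_smul, map_smul, map_smul, e1, e2]

theorem eq_zero_of_neg {K V : Type} [Field K] [CharZero K] [AddCommGroup V] [Module K V] {A : V}
    (h : -A = A) : A = 0 := by
  have h1 : (2 : K) • A = 0 := by
    rw [two_smul]
    nth_rw 1 [← h]
    rw [neg_add_cancel]
  exact (smul_eq_zero.1 h1).resolve_left two_ne_zero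

section nondeg

variable [CharZero K]

theorem PRep.sub_star_mem (Z : End K P.V) : Z - P.star Z ∈ P.skew := by
  rw [P.mem_skew_star, map_sub, P.star_star, neg_sub]

theorem PRep.sym_of_perp {A : End K P.V} (h : ∀ X ∈ P.skew, LinearMap.trace K P.V (A * X) = 0) : P.star A = A := by
  have h1 : A - P.star A = 0 := by
    refine trace_nondeg fun Z => ?_
    have h2 : LinearMap.trace K P.V (P.star A * Z) = LinearMap.trace K P.V (A * P.star Z) := by
      rw [← P.trace_star, P.star_mul, P.star_star, LinearMap.trace_mul_comm]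
    rw [sub_mul, map_sub, h2, ← map_sub, ← mul_sub]
    exact h _ (P.sub_star_mem Z)
  exact (sub_eq_zero.1 h1).symm

theorem PRep.eq_zero_of_perp {A : End K P.V} (hA : A ∈ P.skew)
    (h : ∀ X ∈ P.skew, LinearMap.trace K P.V (A * X) = 0) : A = 0 := by
  have h1 := P.sym_of_perp h
  rw [P.mem_skew_star.1 hA] at h1
  exact eq_zero_of_neg (K := K) h1

/-- the elementary skew operators -/
def PRep.el (P : PRep K Γ) (v w : P.V) : End K P.V :=
  LinearMap.smulRight (P.form v) w - ((P.sign : ℤ) : K) • LinearMap.smulRight (P.form w) v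

theorem PRep.el_apply (v w z : P.V) :
    P.el v w z = P.form v z • w - (((P.sign : ℤ) : K) * P.form w z) • v := by
  rw [PRep.el, LinearMap.sub_apply, LinearMap.smul_apply, LinearMap.smulRight_apply,
    LinearMap.smulRight_apply, smul_smul]

theorem PRep.el_mem (v w : P.V) : P.el v w ∈ P.skew := by
  intro x y
  rw [P.el_apply, P.el_apply]
  simp only [map_sub, map_smul, LinearMap.sub_apply, LinearMap.smul_apply, smul_eq_mul]
  rw [P.symm x w, P.symm x v]
  linear_combination (-(P.form v x * P.form w y)) * P.sgn_sq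

/-- **Products of two skew operators are nondegenerate.** -/
theorem PRep.Perf.nondeg4 (hP : P.Perf) {A : End K P.V}
    (h : ∀ Z W : ↥P.skew, LinearMap.trace K P.V (A * (Z.1 * W.1)) = 0) : A = 0 := by
  have h1 : ∀ X ∈ P.skew, LinearMap.trace K P.V (A * X) = 0 := by
    intro X hX
    have h2 := hP.ext (f := LinearMap.trace K P.V ∘ₗ LinearMap.mulLeft K A ∘ₗ P.skew.subtype) (g := 0)
      (fun X Y => ?_) ⟨X, hX⟩
    · exact h2
    · change LinearMap.trace K P.V (A * (X.1 * Y.1 - Y.1 * X.1)) = 0
      rw [mul_sub, map_sub, h, h, sub_self]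
  have h2 := P.sym_of_perp h1
  have h3 : ∀ X ∈ P.skew, X * A = -(A * X) := by
    intro X hX
    have h4 := P.sym_of_perp (A := X * A) fun Z hZ => by
      rw [mul_assoc, LinearMap.trace_mul_comm, mul_assoc]
      exact h ⟨Z, hZ⟩ ⟨X, hX⟩
    rw [P.star_mul, h2, P.mem_skew_star.1 hX, mul_neg] at h4
    exact h4.symm
  have h4 : ∀ X ∈ P.skew, A * X = 0 := by
    intro X hX
    have h5 := hP.ext (f := LinearMap.mulLeft K A ∘ₗ P.skew.subtype) (g := 0)
      (fun X Y => ?_) ⟨X, hX⟩
    · exact h5
    · change A * (X.1 * Y.1 - Y.1 * X.1) = 0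
      have h6 := h3 _ (P.bracket_skew X.2 Y.2)
      have h7 : ∀ X ∈ P.skew, ∀ Y ∈ P.skew, A * (X * Y) = X * Y * A := by
        intro X hX Y hY
        have e1 : A * X = -(X * A) := by rw [h3 X hX, neg_neg]
        have e2 : A * Y = -(Y * A) := by rw [h3 Y hY, neg_neg]
        rw [← mul_assoc, e1, neg_mul, mul_assoc, e2, mul_neg, neg_neg, mul_assoc]
      have h8 : A * (X.1 * Y.1 - Y.1 * X.1) = (X.1 * Y.1 - Y.1 * X.1) * A := by
        rw [mul_sub, sub_mul, h7 _ X.2 _ Y.2, h7 _ Y.2 _ X.2]
      rw [← h8] at h6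
      exact eq_zero_of_neg (K := K) h6.symm
  apply LinearMap.ext
  intro v
  rw [LinearMap.zero_apply]
  -- a nonzero vector orthogonal to `v`
  obtain ⟨z, hz, hvz⟩ : ∃ z, z ≠ 0 ∧ P.form v z = 0 := by
    by_contra hcon
    push Not at hcon
    have h5 : Function.Injective (P.form v) := by
      intro x y hxy
      by_contra hne
      exact hcon (x - y) (sub_ne_zero.2 hne) (by rw [map_sub, hxy, sub_self])
    have h6 := LinearMap.finrank_le_finrank_of_injective h5
    rw [finrank_self] at h6
    exact absurd hP.two (by omega)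
  obtain ⟨w, hw⟩ : ∃ w, P.form w z ≠ 0 := by
    by_contra hcon
    push Not at hcon
    exact hz (P.nondegR hcon)
  have h5 := congrArg (fun f : End K P.V => f z) (h4 _ (P.el_mem v w))
  change A (P.el v w z) = 0 at h5
  rw [P.el_apply, hvz, zero_smul, zero_sub, map_neg, neg_eq_zero, map_smul] at h5
  refine (smul_eq_zero.1 h5).resolve_left (mul_ne_zero ?_ hw)
  intro h0
  have h6 := P.sgn_sq
  rw [h0, zero_mul] at h6
  exact zero_ne_one h6

end nondeg

end Pool.Agent.H802T
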