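import Pool.Agent.H802U.Iso

/-!
# The isomorphism of the algebras of endomorphisms
-/

set_option autoImplicit false
set_option linter.unusedSectionVars false

namespace Pool.Agent.H802T

open Module

variable {K : Type} [Field K] [CharZero K] {Γ : Type} [Group Γ] {P Q : PRep K Γ}

theorem exists_factor {A B C : Type} [AddCommGroup A] [Module K A] [AddCommGroup B] [Module K B]
    [AddCommGroup C] [Module K C] (μ : A →ₗ[K] B) (ν : A →ₗ[K] C) (hμ : Function.Surjective μ)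
    (h : ∀ t, μ t = 0 → ν t = 0) : ∃ Ψ : B →ₗ[K] C, ∀ t, Ψ (μ t) = ν t := by
  refine ⟨(LinearMap.ker μ).liftQ ν (fun t ht => h t ht) ∘ₗ
    (μ.quotKerEquivOfSurjective hμ).symm.toLinearMap, fun t => ?_⟩
  have h1 : (μ.quotKerEquivOfSurjective hμ).symm (μ t) = Submodule.Quotient.mk t := by
    rw [LinearEquiv.symm_apply_eq]
    rfl
  change (LinearMap.ker μ).liftQ ν (fun t ht => h t ht)
    ((μ.quotKerEquivOfSurjective hμ).symm (μ t)) = ν t
  rw [h1]
  rfl

/-- the multiplication -/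
noncomputable def mp {S V : Type} [AddCommGroup S] [Module K S] [AddCommGroup V] [Module K V]
    (i : S →ₗ[K] End K V) : TensorProduct K S S →ₗ[K] End K V :=
  LinearMap.mul' K (End K V) ∘ₗ TensorProduct.map i i

theorem mp_tmul {S V : Type} [AddCommGroup S] [Module K S] [AddCommGroup V] [Module K V]
    (i : S →ₗ[K] End K V) (x y : S) : mp i (x ⊗ₜ[K] y) = i x * i y := by
  rw [mp, LinearMap.comp_apply, TensorProduct.map_tmul, LinearMap.mul'_apply]

theorem mp_surj (hP : P.Perf) : Function.Surjective (mp P.skew.subtype) := by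
  intro A
  have h1 := hP.prod_span A
  have h2 : Submodule.span K {Z | ∃ X Y : ↥P.skew, Z = X.1 * Y.1} ≤
      LinearMap.range (mp P.skew.subtype) := by
    refine Submodule.span_le.2 ?_
    rintro Z ⟨X, Y, rfl⟩
    exact ⟨X ⊗ₜ[K] Y, mp_tmul _ _ _⟩
  exact h2 h1

section

variable (f : LieIso P Q) (hP : P.Perf) (hQ : Q.Perf) (hdim : P.dim = Q.dim)
  (hsign : P.sign = Q.sign) (h2 : (P.dim : ℤ) ≠ 2 * (P.sign : ℤ))
  (h8 : (P.dim : ℤ) ≠ 8 * (P.sign : ℤ))

include hdim hsign h2 h8 in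
theorem LieIso.mp_trace (t : TensorProduct K ↥P.skew ↥P.skew) (Z W : ↥P.skew) :
    LinearMap.trace K Q.V (mp (Q.skew.subtype ∘ₗ f.φ.toLinearMap) t *
      ((f.φ Z).1 * (f.φ W).1)) =
      LinearMap.trace K P.V (mp P.skew.subtype t * (Z.1 * W.1)) := by
  induction t with
  | zero => simp only [map_zero, zero_mul]
  | add x y hx hy => rw [map_add, map_add, add_mul, add_mul, map_add, map_add, hx, hy]
  | tmul X Y =>
    rw [mp_tmul, mp_tmul, mul_assoc, mul_assoc]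
    exact f.four hdim hsign h2 h8 X Y Z W

include hP hQ hdim hsign h2 h8

/-- the linear map -/
theorem LieIso.exists_psi : ∃ Ψ : End K P.V →ₗ[K] End K Q.V, Function.Bijective Ψ ∧
    ∀ X Y : ↥P.skew, Ψ (X.1 * Y.1) = (f.φ X).1 * (f.φ Y).1 := by
  obtain ⟨Ψ, hΨ⟩ := exists_factor (mp P.skew.subtype) (mp (Q.skew.subtype ∘ₗ f.φ.toLinearMap))
    (mp_surj hP) (fun t ht => hQ.nondeg4 fun Z W => by
      obtain ⟨Z, rfl⟩ := f.φ.surjective Z
      obtain ⟨W, rfl⟩ := f.φ.surjective W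
      rw [f.mp_trace hdim hsign h2 h8, ht, zero_mul, map_zero])
  refine ⟨Ψ, ⟨?_, ?_⟩, fun X Y => ?_⟩
  · rw [← LinearMap.ker_eq_bot, eq_bot_iff]
    intro A hA
    rw [LinearMap.mem_ker] at hA
    obtain ⟨t, rfl⟩ := mp_surj hP A
    rw [hΨ] at hA
    rw [Submodule.mem_bot]
    exact hP.nondeg4 fun Z W => by
      rw [← f.mp_trace hdim hsign h2 h8, hA, zero_mul, map_zero]
  · intro B
    obtain ⟨t, rfl⟩ := mp_surj hQ B
    refine ⟨mp P.skew.subtype (TensorProduct.map f.φ.symm.toLinearMap f.φ.symm.toLinearMap t), ?_⟩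
    rw [hΨ]
    induction t with
    | zero => simp only [map_zero]
    | add x y hx hy => rw [map_add, map_add, map_add, hx, hy]
    | tmul X Y =>
      rw [TensorProduct.map_tmul, mp_tmul, mp_tmul]
      simp
  · have h3 := hΨ (X ⊗ₜ[K] Y)
    rw [mp_tmul, mp_tmul] at h3
    exact h3

omit hQ h8 hP in
theorem LieIso.triple (h8 : (P.dim : ℤ) ≠ 8 * (P.sign : ℤ)) (X Y Z T : ↥P.skew)
    (hT : T.1 = X.1 * (Y.1 * Z.1) + Z.1 * (Y.1 * X.1)) :
    (f.φ T).1 = (f.φ X).1 * ((f.φ Y).1 * (f.φ Z).1) + (f.φ Z).1 * ((f.φ Y).1 * (f.φ X).1) := by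
  rw [← sub_eq_zero]
  refine Q.eq_zero_of_perp ?_ ?_
  · refine Submodule.sub_mem _ (f.φ T).2 ?_
    rw [Q.mem_skew_star, map_add]
    simp only [Q.star_mul, Q.mem_skew_star.1 (f.φ X).2, Q.mem_skew_star.1 (f.φ Y).2,
      Q.mem_skew_star.1 (f.φ Z).2, mul_neg, neg_mul, neg_neg, mul_assoc, neg_add_rev]
  · intro W hW
    obtain ⟨W, hW'⟩ := f.φ.surjective ⟨W, hW⟩
    have h3 := congrArg Subtype.val hW'
    change (f.φ W).1 = _ at h3
    dsimp only at h3
    rw [← h3, sub_mul, map_sub, f.two hdim hsign h2, add_mul, map_add]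
    simp only [mul_assoc]
    rw [f.four hdim hsign h2 h8, f.four hdim hsign h2 h8, hT, add_mul, map_add]
    simp only [mul_assoc]
    rw [sub_self]

/-- **Isomorphisms of orthogonal and symplectic Lie algebras come from linear isomorphisms.** -/
theorem LieIso.exists_equiv : ∃ u : P.V ≃ₗ[K] Q.V, ∀ (X : ↥P.skew) (x : P.V),
    u (X.1 x) = (f.φ X).1 (u x) := by
  obtain ⟨Ψ, hbij, hΨ⟩ := f.exists_psi hP hQ hdim hsign h2 h8
  have h3 : ∀ X : ↥P.skew, Ψ X.1 = (f.φ X).1 := by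
    refine hP.ext (f := Ψ ∘ₗ P.skew.subtype) (g := Q.skew.subtype ∘ₗ f.φ.toLinearMap) ?_
    intro X Y
    change Ψ (X.1 * Y.1 - Y.1 * X.1) = (f.φ (P.adS X Y)).1
    rw [map_sub, hΨ, hΨ, f.br']
  have h4 : ∀ X Y Z : ↥P.skew, Ψ (X.1 * (Y.1 * Z.1)) = (f.φ X).1 * Ψ (Y.1 * Z.1) := by
    intro X Y Z
    rw [hΨ]
    have hTm : X.1 * (Y.1 * Z.1) + Z.1 * (Y.1 * X.1) ∈ P.skew := by
      rw [P.mem_skew_star, map_add]
      simp only [P.star_mul, P.mem_skew_star.1 X.2, P.mem_skew_star.1 Y.2,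
        P.mem_skew_star.1 Z.2, mul_neg, neg_mul, neg_neg, mul_assoc, neg_add_rev]
    have h5 := f.triple hdim hsign h2 h8 X Y Z ⟨_, hTm⟩ rfl
    have h6 := h3 ⟨_, hTm⟩
    have h7 : X.1 * (Y.1 * Z.1) - Z.1 * (Y.1 * X.1) =
        (P.adS X Y).1 * Z.1 + Y.1 * (P.adS X Z).1 + (P.adS Y Z).1 * X.1 := by
      change _ = (X.1 * Y.1 - Y.1 * X.1) * Z.1 + Y.1 * (X.1 * Z.1 - Z.1 * X.1) +
        (Y.1 * Z.1 - Z.1 * Y.1) * X.1
      noncomm_ring
    have h8 : Ψ (X.1 * (Y.1 * Z.1) - Z.1 * (Y.1 * X.1)) =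
        (f.φ X).1 * ((f.φ Y).1 * (f.φ Z).1) - (f.φ Z).1 * ((f.φ Y).1 * (f.φ X).1) := by
      rw [h7, map_add, map_add, hΨ, hΨ, hΨ, f.br', f.br', f.br']
      noncomm_ring
    have h9 : (2 : K) • (X.1 * (Y.1 * Z.1)) = (X.1 * (Y.1 * Z.1) + Z.1 * (Y.1 * X.1)) +
        (X.1 * (Y.1 * Z.1) - Z.1 * (Y.1 * X.1)) := by
      rw [two_smul]
      abel
    have h10 : (2 : K) • Ψ (X.1 * (Y.1 * Z.1)) =
        (2 : K) • ((f.φ X).1 * ((f.φ Y).1 * (f.φ Z).1)) := by
      rw [← map_smul, h9, map_add, h8, h6, h5, two_smul]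
      abel
    exact smul_right_injective _ (two_ne_zero' K) h10
  have h5 : ∀ (X : ↥P.skew) (A : End K P.V), Ψ (X.1 * A) = (f.φ X).1 * Ψ A := by
    intro X A
    have h6 := hP.prod_span A
    induction h6 using Submodule.span_induction with
    | mem A hA =>
      obtain ⟨Y, Z, rfl⟩ := hA
      exact h4 X Y Z
    | zero => rw [mul_zero, map_zero, mul_zero]
    | add x y _ _ hx hy => rw [mul_add, map_add, map_add, mul_add, hx, hy]
    | smul r x _ hx => rw [mul_smul_comm, map_smul, map_smul, mul_smul_comm, hx]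
  have h6 : ∀ A B : End K P.V, Ψ (A * B) = Ψ A * Ψ B := by
    intro A B
    have h7 := hP.prod_span A
    induction h7 using Submodule.span_induction with
    | mem A hA =>
      obtain ⟨Y, Z, rfl⟩ := hA
      rw [mul_assoc, h5, h5, hΨ, mul_assoc]
    | zero => rw [zero_mul, map_zero, zero_mul]
    | add x y _ _ hx hy => rw [add_mul, map_add, map_add, add_mul, hx, hy]
    | smul r x _ hx => rw [smul_mul_assoc, map_smul, map_smul, smul_mul_assoc, hx]
  have h7 : Ψ 1 = 1 := by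
    obtain ⟨A, hA⟩ := hbij.2 1
    rw [← hA, ← mul_one (Ψ 1), ← hA, ← h6, one_mul]
  let g : End K P.V ≃ₐ[K] End K Q.V :=
    AlgEquiv.ofLinearEquiv (LinearEquiv.ofBijective Ψ hbij) h7 h6
  obtain ⟨u, hu⟩ := AlgEquiv.eq_linearEquivConjAlgEquiv g
  refine ⟨u, fun X x => ?_⟩
  have h8 : (f.φ X).1 = u.conjAlgEquiv K X.1 := by
    rw [← h3, ← hu]
    rfl
  rw [h8, LinearEquiv.conjAlgEquiv_apply]
  change u (X.1 x) = u (X.1 (u.symm (u x)))
  rw [LinearEquiv.symm_apply_apply]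

end

/-- An operator which commutes with the Lie algebra is a scalar. -/
theorem PRep.Perf.scalar (hP : P.Perf) {A : End K P.V} (hA : ∀ X : ↥P.skew, A * X.1 = X.1 * A) :
    ∃ c : K, ∀ x, A x = c • x := by
  have h1 : ∀ B : End K P.V, A * B = B * A := by
    intro B
    have h7 := hP.prod_span B
    induction h7 using Submodule.span_induction with
    | mem B hB =>
      obtain ⟨Y, Z, rfl⟩ := hB
      rw [← mul_assoc, hA, mul_assoc, hA, mul_assoc]
    | zero => rw [zero_mul, mul_zero]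
    | add x y _ _ hx hy => rw [add_mul, mul_add, hx, hy]
    | smul r x _ hx => rw [smul_mul_assoc, mul_smul_comm, hx]
  have h2 : A ∈ Subalgebra.center K (End K P.V) := by
    rw [Subalgebra.mem_center_iff]
    exact fun B => (h1 B).symm
  have h3 := Algebra.IsCentral.out h2
  obtain ⟨c, hc⟩ := Algebra.mem_bot.1 h3
  exact ⟨c, fun x => by rw [← hc, Module.algebraMap_end_apply]⟩

end Pool.Agent.H802T
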