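import Pool.Agent.H802U.Tr

/-!
# The quadratic and quartic trace forms
-/

set_option autoImplicit false
set_option linter.unusedSectionVars false
set_option linter.unusedSimpArgs false

namespace Pool.Agent.H802T

open Module

variable {K : Type} [Field K] {Γ : Type} [Group Γ]

section adE

variable {V : Type} [AddCommGroup V] [Module K V] [FiniteDimensional K V]

/-- the bracket with an operator -/
def adE (X : End K V) : End K (End K V) := sand X 1 - sand 1 X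

theorem adE_apply (X Z : End K V) : adE X Z = X * Z - Z * X := by
  rw [adE, LinearMap.sub_apply, sand_apply, sand_apply, mul_one, one_mul]

end adE

variable (P : PRep K Γ)

theorem PRep.trace_skew_zero [CharZero K] {X : End K P.V} (hX : X ∈ P.skew) :
    LinearMap.trace K P.V X = 0 := by
  have h1 := P.trace_star X
  rw [P.mem_skew_star.1 hX, map_neg] at h1
  exact self_eq_neg.1 h1.symm

/-- the bracket on the Lie algebra -/
def PRep.adS (X : ↥P.skew) : End K ↥P.skew where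
  toFun Z := ⟨X.1 * Z.1 - Z.1 * X.1, P.bracket_skew X.2 Z.2⟩
  map_add' Z Z' := by
    apply Subtype.ext
    change X.1 * (Z.1 + Z'.1) - (Z.1 + Z'.1) * X.1 =
      (X.1 * Z.1 - Z.1 * X.1) + (X.1 * Z'.1 - Z'.1 * X.1)
    rw [mul_add, add_mul]
    abel
  map_smul' r Z := by
    apply Subtype.ext
    change X.1 * (r • Z.1) - (r • Z.1) * X.1 = r • (X.1 * Z.1 - Z.1 * X.1)
    rw [mul_smul_comm, smul_mul_assoc, smul_sub]

theorem PRep.adS_coe (X Z : ↥P.skew) : ((P.adS X Z : ↥P.skew) : End K P.V) = adE X.1 Z.1 :=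
  (adE_apply _ _).symm

/-- the projection to the Lie algebra -/
noncomputable def PRep.toSkew [CharZero K] : End K P.V →ₗ[K] ↥P.skew where
  toFun Z := ⟨(2 : K)⁻¹ • (Z - P.star Z), by
    rw [P.mem_skew_star, map_smul, map_sub, P.star_star, ← smul_neg, neg_sub]⟩
  map_add' Z Z' := by
    apply Subtype.ext
    change (2 : K)⁻¹ • (Z + Z' - P.star (Z + Z')) =
      (2 : K)⁻¹ • (Z - P.star Z) + (2 : K)⁻¹ • (Z' - P.star Z')
    rw [map_add, ← smul_add]
    congr 1
    abel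
  map_smul' r Z := by
    apply Subtype.ext
    change (2 : K)⁻¹ • (r • Z - P.star (r • Z)) = r • ((2 : K)⁻¹ • (Z - P.star Z))
    rw [map_smul, ← smul_sub, smul_comm]

theorem PRep.trace_skew [CharZero K] (G : End K ↥P.skew) (F : End K (End K P.V))
    (h : ∀ Z : ↥P.skew, F Z.1 = (G Z : End K P.V)) :
    LinearMap.trace K ↥P.skew G =
      (2 : K)⁻¹ * (LinearMap.trace K (End K P.V) F - LinearMap.trace K (End K P.V) (F * P.star)) := by
  have h1 : P.toSkew ∘ₗ P.skew.subtype = LinearMap.id := by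
    apply LinearMap.ext
    intro Z
    apply Subtype.ext
    change (2 : K)⁻¹ • (Z.1 - P.star Z.1) = Z.1
    rw [P.mem_skew_star.1 Z.2, sub_neg_eq_add, ← two_smul K, smul_smul,
      inv_mul_cancel₀ two_ne_zero, one_smul]
  have h2 : P.skew.subtype ∘ₗ G ∘ₗ P.toSkew = (2 : K)⁻¹ • (F - F * P.star) := by
    apply LinearMap.ext
    intro Z
    change ((G (P.toSkew Z) : ↥P.skew) : End K P.V) = _
    rw [← h]
    change F ((2 : K)⁻¹ • (Z - P.star Z)) = _
    rw [map_smul, map_sub]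
    rfl
  have h3 : LinearMap.trace K ↥P.skew G = LinearMap.trace K ↥P.skew ((G ∘ₗ P.toSkew) ∘ₗ P.skew.subtype) := by
    rw [LinearMap.comp_assoc, h1, LinearMap.comp_id]
  rw [h3, LinearMap.trace_comp_comm', h2, map_smul, map_sub, smul_eq_mul]

section quad

variable [CharZero K]

theorem PRep.quad (X1 X2 : ↥P.skew) :
    LinearMap.trace K ↥P.skew (P.adS X1 * P.adS X2) =
      ((P.dim : K) - 2 * ((P.sign : ℤ) : K)) * LinearMap.trace K P.V (X1.1 * X2.1) := by
  obtain ⟨X1, hX1'⟩ := X1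
  obtain ⟨X2, hX2'⟩ := X2
  have hX1 := P.mem_skew_star.1 hX1'
  have hX2 := P.mem_skew_star.1 hX2'
  rw [P.trace_skew _ (adE X1 * adE X2) fun Z => by
    rw [Module.End.mul_apply, Module.End.mul_apply, P.adS_coe, P.adS_coe]]
  simp only [adE, sub_mul, mul_sub, sand_mul, one_mul, mul_one, map_sub, trace_sand,
    P.trace_sand_star, P.star_mul, P.star_one, hX1, hX2, mul_neg, neg_mul, neg_neg, map_neg,
    P.trace_skew_zero hX1', P.trace_skew_zero hX2', LinearMap.trace_one]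
  have h1 : LinearMap.trace K P.V (X2 * X1) = LinearMap.trace K P.V (X1 * X2) := LinearMap.trace_mul_comm K X2 X1
  have h2 : (finrank K P.V : K) = (P.dim : K) := rfl
  rw [h1, h2]
  ring

theorem PRep.tr_rev {a b c d : End K P.V} (ha : P.star a = -a) (hb : P.star b = -b)
    (hc : P.star c = -c) (hd : P.star d = -d) : LinearMap.trace K P.V (a * (b * (c * d))) = LinearMap.trace K P.V (d * (c * (b * a))) := by
  rw [← P.trace_star (a * (b * (c * d)))]
  simp only [P.star_mul, ha, hb, hc, hd, mul_neg, neg_mul, neg_neg, mul_assoc]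

set_option maxHeartbeats 4000000 in
theorem PRep.quart (Y1 Y2 Y3 Y4 : ↥P.skew) :
    LinearMap.trace K ↥P.skew (P.adS Y1 * (P.adS Y2 * (P.adS Y3 * P.adS Y4))) =
      ((P.dim : K) - 8 * ((P.sign : ℤ) : K)) * LinearMap.trace K P.V (Y1.1 * (Y2.1 * (Y3.1 * Y4.1))) +
      (LinearMap.trace K P.V (Y1.1 * Y2.1) * LinearMap.trace K P.V (Y3.1 * Y4.1) + LinearMap.trace K P.V (Y1.1 * Y3.1) * LinearMap.trace K P.V (Y2.1 * Y4.1) +
        LinearMap.trace K P.V (Y1.1 * Y4.1) * LinearMap.trace K P.V (Y2.1 * Y3.1)) +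
      ((P.sign : ℤ) : K) * (LinearMap.trace K P.V (adE Y1.1 Y2.1 * adE Y3.1 Y4.1) +
        LinearMap.trace K P.V (adE Y4.1 Y1.1 * adE Y2.1 Y3.1)) := by
  obtain ⟨X1, hX1'⟩ := Y1
  obtain ⟨X2, hX2'⟩ := Y2
  obtain ⟨X3, hX3'⟩ := Y3
  obtain ⟨X4, hX4'⟩ := Y4
  have hX1 := P.mem_skew_star.1 hX1'
  have hX2 := P.mem_skew_star.1 hX2'
  have hX3 := P.mem_skew_star.1 hX3'
  have hX4 := P.mem_skew_star.1 hX4'
  rw [P.trace_skew _ (adE X1 * (adE X2 * (adE X3 * adE X4))) fun Z => by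
    simp only [Module.End.mul_apply, P.adS_coe]]
  have cyc : ∀ a b c d : End K P.V, LinearMap.trace K P.V (a * (b * (c * d))) = LinearMap.trace K P.V (b * (c * (d * a))) := by
    intro a b c d
    rw [LinearMap.trace_mul_comm]
    simp only [mul_assoc]
  have rev : ∀ a b c d : End K P.V, P.star a = -a → P.star b = -b → P.star c = -c →
      P.star d = -d → LinearMap.trace K P.V (a * (b * (c * d))) = LinearMap.trace K P.V (d * (c * (b * a))) :=
    fun a b c d => P.tr_rev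
  have h1342 : LinearMap.trace K P.V (X1 * (X3 * (X4 * X2))) = LinearMap.trace K P.V (X1 * (X2 * (X4 * X3))) := by
    rw [cyc X1 X2 X4 X3, rev X2 X4 X3 X1 hX2 hX4 hX3 hX1]
  have h1423 : LinearMap.trace K P.V (X1 * (X4 * (X2 * X3))) = LinearMap.trace K P.V (X1 * (X3 * (X2 * X4))) := by
    rw [cyc X1 X3 X2 X4, rev X3 X2 X4 X1 hX3 hX2 hX4 hX1]
  have h1432 : LinearMap.trace K P.V (X1 * (X4 * (X3 * X2))) = LinearMap.trace K P.V (X1 * (X2 * (X3 * X4))) := by
    rw [cyc X1 X2 X3 X4, rev X2 X3 X4 X1 hX2 hX3 hX4 hX1]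
  have h2134 : LinearMap.trace K P.V (X2 * (X1 * (X3 * X4))) = LinearMap.trace K P.V (X1 * (X2 * (X4 * X3))) := by
    rw [cyc X1 X2 X4 X3, cyc X2 X4 X3 X1, rev X4 X3 X1 X2 hX4 hX3 hX1 hX2]
  have h2143 : LinearMap.trace K P.V (X2 * (X1 * (X4 * X3))) = LinearMap.trace K P.V (X1 * (X2 * (X3 * X4))) := by
    rw [cyc X1 X2 X3 X4, cyc X2 X3 X4 X1, rev X3 X4 X1 X2 hX3 hX4 hX1 hX2]
  have h2314 : LinearMap.trace K P.V (X2 * (X3 * (X1 * X4))) = LinearMap.trace K P.V (X1 * (X3 * (X2 * X4))) := by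
    rw [rev X1 X3 X2 X4 hX1 hX3 hX2 hX4, cyc X4 X2 X3 X1]
  have h2341 : LinearMap.trace K P.V (X2 * (X3 * (X4 * X1))) = LinearMap.trace K P.V (X1 * (X2 * (X3 * X4))) := by
    rw [cyc X1 X2 X3 X4]
  have h2413 : LinearMap.trace K P.V (X2 * (X4 * (X1 * X3))) = LinearMap.trace K P.V (X1 * (X3 * (X2 * X4))) := by
    rw [cyc X1 X3 X2 X4, cyc X3 X2 X4 X1]
  have h2431 : LinearMap.trace K P.V (X2 * (X4 * (X3 * X1))) = LinearMap.trace K P.V (X1 * (X2 * (X4 * X3))) := by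
    rw [cyc X1 X2 X4 X3]
  have h3124 : LinearMap.trace K P.V (X3 * (X1 * (X2 * X4))) = LinearMap.trace K P.V (X1 * (X2 * (X4 * X3))) := by
    rw [cyc X1 X2 X4 X3, cyc X2 X4 X3 X1, cyc X4 X3 X1 X2]
  have h3142 : LinearMap.trace K P.V (X3 * (X1 * (X4 * X2))) = LinearMap.trace K P.V (X1 * (X3 * (X2 * X4))) := by
    rw [cyc X1 X3 X2 X4, cyc X3 X2 X4 X1, rev X2 X4 X1 X3 hX2 hX4 hX1 hX3]
  have h3214 : LinearMap.trace K P.V (X3 * (X2 * (X1 * X4))) = LinearMap.trace K P.V (X1 * (X2 * (X3 * X4))) := by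
    rw [rev X1 X2 X3 X4 hX1 hX2 hX3 hX4, cyc X4 X3 X2 X1]
  have h3241 : LinearMap.trace K P.V (X3 * (X2 * (X4 * X1))) = LinearMap.trace K P.V (X1 * (X3 * (X2 * X4))) := by
    rw [cyc X1 X3 X2 X4]
  have h3412 : LinearMap.trace K P.V (X3 * (X4 * (X1 * X2))) = LinearMap.trace K P.V (X1 * (X2 * (X3 * X4))) := by
    rw [cyc X1 X2 X3 X4, cyc X2 X3 X4 X1]
  have h3421 : LinearMap.trace K P.V (X3 * (X4 * (X2 * X1))) = LinearMap.trace K P.V (X1 * (X2 * (X4 * X3))) := by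
    rw [rev X1 X2 X4 X3 hX1 hX2 hX4 hX3]
  have h4123 : LinearMap.trace K P.V (X4 * (X1 * (X2 * X3))) = LinearMap.trace K P.V (X1 * (X2 * (X3 * X4))) := by
    rw [cyc X1 X2 X3 X4, cyc X2 X3 X4 X1, cyc X3 X4 X1 X2]
  have h4132 : LinearMap.trace K P.V (X4 * (X1 * (X3 * X2))) = LinearMap.trace K P.V (X1 * (X3 * (X2 * X4))) := by
    rw [cyc X1 X3 X2 X4, cyc X3 X2 X4 X1, cyc X2 X4 X1 X3]
  have h4213 : LinearMap.trace K P.V (X4 * (X2 * (X1 * X3))) = LinearMap.trace K P.V (X1 * (X2 * (X4 * X3))) := by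
    rw [rev X1 X2 X4 X3 hX1 hX2 hX4 hX3, cyc X3 X4 X2 X1]
  have h4231 : LinearMap.trace K P.V (X4 * (X2 * (X3 * X1))) = LinearMap.trace K P.V (X1 * (X3 * (X2 * X4))) := by
    rw [rev X1 X3 X2 X4 hX1 hX3 hX2 hX4]
  have h4312 : LinearMap.trace K P.V (X4 * (X3 * (X1 * X2))) = LinearMap.trace K P.V (X1 * (X2 * (X4 * X3))) := by
    rw [cyc X1 X2 X4 X3, cyc X2 X4 X3 X1]
  have h4321 : LinearMap.trace K P.V (X4 * (X3 * (X2 * X1))) = LinearMap.trace K P.V (X1 * (X2 * (X3 * X4))) := by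
    rw [rev X1 X2 X3 X4 hX1 hX2 hX3 hX4]
  have k21 : LinearMap.trace K P.V (X2 * X1) = LinearMap.trace K P.V (X1 * X2) := LinearMap.trace_mul_comm K _ _
  have k31 : LinearMap.trace K P.V (X3 * X1) = LinearMap.trace K P.V (X1 * X3) := LinearMap.trace_mul_comm K _ _
  have k41 : LinearMap.trace K P.V (X4 * X1) = LinearMap.trace K P.V (X1 * X4) := LinearMap.trace_mul_comm K _ _
  have k32 : LinearMap.trace K P.V (X3 * X2) = LinearMap.trace K P.V (X2 * X3) := LinearMap.trace_mul_comm K _ _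
  have k42 : LinearMap.trace K P.V (X4 * X2) = LinearMap.trace K P.V (X2 * X4) := LinearMap.trace_mul_comm K _ _
  have k43 : LinearMap.trace K P.V (X4 * X3) = LinearMap.trace K P.V (X3 * X4) := LinearMap.trace_mul_comm K _ _
  have hd : (finrank K P.V : K) = (P.dim : K) := rfl
  simp only [adE_apply]
  simp only [adE, sub_mul, mul_sub, sand_mul, one_mul, mul_one, map_sub, trace_sand,
    P.trace_sand_star, P.star_mul, P.star_one, hX1, hX2, hX3, hX4, mul_neg, neg_mul, neg_neg,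
    map_neg, P.trace_skew_zero hX1', P.trace_skew_zero hX2', P.trace_skew_zero hX3',
    P.trace_skew_zero hX4', LinearMap.trace_one, mul_assoc, h1342, h1423, h1432, h2134, h2143, h2314, h2341, h2413, h2431, h3124, h3142, h3214, h3241, h3412, h3421, h4123, h4132, h4213, h4231, h4312, h4321,
    k21, k31, k41, k32, k42, k43, hd, zero_mul, mul_zero]
  ring

end quad

end Pool.Agent.H802T
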