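import Pool.Agent.H802T.Lie

/-!
# Traces on the Lie algebra of an orthogonal or symplectic group
-/

set_option autoImplicit false
set_option linter.unusedSectionVars false

namespace Pool.Agent.H802T

open Module

section sand

variable {K V : Type} [Field K] [AddCommGroup V] [Module K V] [FiniteDimensional K V]

/-- the map `Z ↦ A Z C` -/
def sand (A C : End K V) : End K (End K V) :=
  LinearMap.mulLeft K A ∘ₗ LinearMap.mulRight K C

theorem sand_apply (A C Z : End K V) : sand A C Z = A * (Z * C) := rfl

theorem sand_mul (A C A' C' : End K V) : sand A C * sand A' C' = sand (A * A') (C' * C) := by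
  apply LinearMap.ext
  intro Z
  rw [Module.End.mul_apply, sand_apply, sand_apply, sand_apply]
  simp only [mul_assoc]

theorem trace_sand (A C : End K V) :
    LinearMap.trace K (End K V) (sand A C) = LinearMap.trace K V A * LinearMap.trace K V C := by
  have h1 : sand A C = (dualTensorHomEquiv K V V).conj
      (TensorProduct.map (Module.Dual.transpose (R := K) C) A) := by
    apply LinearMap.ext
    intro Z
    obtain ⟨t, rfl⟩ := (dualTensorHomEquiv K V V).surjective Z
    rw [LinearEquiv.conj_apply_apply, LinearEquiv.symm_apply_apply]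
    induction t with
    | zero => simp only [map_zero]
    | add x y hx hy => simp only [map_add, hx, hy]
    | tmul f v =>
      apply LinearMap.ext
      intro w
      simp [sand_apply, dualTensorHomEquiv, Module.Dual.transpose_apply]
  rw [h1]
  refine (LinearMap.trace_conj' (R := K) (M := TensorProduct K (Dual K V) V) (N := V →ₗ[K] V)
    (TensorProduct.map (Module.Dual.transpose (R := K) C) A) (dualTensorHomEquiv K V V)).trans ?_
  rw [LinearMap.trace_tensorProduct', LinearMap.trace_transpose', mul_comm]

end sand

variable {K : Type} [Field K] {Γ : Type} [Group Γ] (P : PRep K Γ)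

/-- the duality -/
noncomputable def PRep.du : P.V ≃ₗ[K] Dual K P.V :=
  LinearMap.linearEquivOfInjective P.form (by
    intro x y hxy
    rw [← sub_eq_zero]
    refine P.nondeg _ fun z => ?_
    rw [map_sub, hxy, sub_self]
    rfl) (Subspace.dual_finrank_eq).symm

theorem PRep.du_apply (x y : P.V) : P.du x y = P.form x y := by
  rw [PRep.du, LinearMap.linearEquivOfInjective_apply]

/-- the adjoint -/
noncomputable def PRep.star : End K P.V →ₗ[K] End K P.V where
  toFun Z := P.du.symm.toLinearMap ∘ₗ Module.Dual.transpose (R := K) Z ∘ₗ P.du.toLinearMap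
  map_add' Z Z' := by
    rw [map_add, LinearMap.add_comp, LinearMap.comp_add]
  map_smul' r Z := by
    rw [map_smul, LinearMap.smul_comp, LinearMap.comp_smul, RingHom.id_apply]

theorem PRep.star_form (Z : End K P.V) (x y : P.V) : P.form (P.star Z x) y = P.form x (Z y) := by
  rw [← P.du_apply, ← P.du_apply]
  change P.du (P.du.symm (Module.Dual.transpose (R := K) Z (P.du x))) y = P.du x (Z y)
  rw [LinearEquiv.apply_symm_apply]
  rfl

theorem PRep.sgn_sq : ((P.sign : ℤ) : K) * ((P.sign : ℤ) : K) = 1 := by
  have h : (P.sign : ℤ) * (P.sign : ℤ) = 1 := Int.units_coe_mul_self P.sign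
  exact_mod_cast congrArg (Int.cast : ℤ → K) h

theorem PRep.form_star (Z : End K P.V) (x y : P.V) : P.form x (P.star Z y) = P.form (Z x) y := by
  rw [P.symm, P.star_form, P.symm y, ← mul_assoc, P.sgn_sq, one_mul]

theorem PRep.nondegR {y : P.V} (h : ∀ x, P.form x y = 0) : y = 0 := by
  refine P.nondeg y fun x => ?_
  rw [P.symm, h, mul_zero]

theorem PRep.star_eq {Z W : End K P.V} (h : ∀ x y, P.form (W x) y = P.form x (Z y)) :
    P.star Z = W := by
  apply LinearMap.ext
  intro x
  rw [← sub_eq_zero]
  refine P.nondeg _ fun y => ?_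
  rw [map_sub, LinearMap.sub_apply, P.star_form, h, sub_self]

theorem PRep.star_star (Z : End K P.V) : P.star (P.star Z) = Z :=
  P.star_eq fun x y => (P.form_star Z x y).symm

theorem PRep.star_mul (Z W : End K P.V) : P.star (Z * W) = P.star W * P.star Z :=
  P.star_eq fun x y => by
    rw [Module.End.mul_apply, Module.End.mul_apply, P.star_form, P.star_form]

theorem PRep.star_one : P.star 1 = 1 := P.star_eq fun _ _ => rfl

theorem PRep.mem_skew_star {X : End K P.V} : X ∈ P.skew ↔ P.star X = -X := by
  rw [P.mem_skew]
  constructor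
  · intro h
    refine P.star_eq fun x y => ?_
    rw [LinearMap.neg_apply, map_neg, LinearMap.neg_apply]
    exact neg_eq_of_add_eq_zero_right (h x y)
  · intro h x y
    rw [← P.star_form, h, LinearMap.neg_apply, map_neg, LinearMap.neg_apply, add_neg_cancel]

theorem PRep.trace_star (Z : End K P.V) :
    LinearMap.trace K P.V (P.star Z) = LinearMap.trace K P.V Z := by
  rw [← LinearMap.trace_transpose' Z]
  exact LinearMap.trace_conj' (Module.Dual.transpose (R := K) Z) P.du.symm

/-- **The trace of `Z ↦ A Z* C`.** -/
theorem PRep.trace_sand_star (A C : End K P.V) :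
    LinearMap.trace K (End K P.V) (sand A C * P.star) =
      ((P.sign : ℤ) : K) * LinearMap.trace K P.V (A * P.star C) := by
  classical
  set b := Module.finBasis K P.V with hb
  set d : Fin (finrank K P.V) → P.V := fun j => P.du.symm (b.coord j) with hd
  have hd' : ∀ j y, P.form (d j) y = b.repr y j := by
    intro j y
    rw [← P.du_apply, hd]
    beta_reduce
    rw [LinearEquiv.apply_symm_apply]
    rfl
  have htr : ∀ Z : End K P.V, LinearMap.trace K P.V Z = ∑ j, P.form (d j) (Z (b j)) := by
    intro Z
    rw [LinearMap.trace_eq_matrix_trace K b, Matrix.trace]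
    refine Finset.sum_congr rfl fun j _ => ?_
    rw [Matrix.diag_apply, LinearMap.toMatrix_apply, hd']
  rw [LinearMap.trace_eq_matrix_trace K (b.linearMap b), Matrix.trace, Fintype.sum_prod_type]
  have h1 : ∀ i j, Matrix.diag (LinearMap.toMatrix (b.linearMap b) (b.linearMap b)
      (sand A C * P.star)) (i, j) = P.form (C (b j)) (b i) * P.form (d i) (A (d j)) := by
    intro i j
    have h2 : P.star (b.linearMap b (i, j)) = LinearMap.smulRight (P.form.flip (b i)) (d j) := by
      refine P.star_eq fun x y => ?_
      rw [LinearMap.smulRight_apply, map_smul, LinearMap.smul_apply, hd', LinearMap.flip_apply,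
        smul_eq_mul]
      have h3 : b.linearMap b (i, j) y = b.repr y j • b i := by
        conv_lhs => rw [← b.sum_repr y]
        rw [map_sum, Finset.sum_eq_single j]
        · rw [map_smul, Module.Basis.linearMap_apply_apply, if_pos rfl]
        · intro l _ hl
          rw [map_smul, Module.Basis.linearMap_apply_apply, if_neg (fun h => hl h.symm), smul_zero]
        · intro h
          exact absurd (Finset.mem_univ _) h
      rw [h3, map_smul, smul_eq_mul, mul_comm]
    have h4 : ∀ Z : End K P.V, (b.linearMap b).repr Z (i, j) = P.form (d i) (Z (b j)) := by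
      intro Z
      rw [Module.Basis.linearMap_repr_apply, hd']
      exact (show ((Matrix.stdBasis K _ _).repr (LinearMap.toMatrix b b Z)) (i, j) =
        LinearMap.toMatrix b b Z i j from rfl).trans (LinearMap.toMatrix_apply b b Z i j)
    rw [Matrix.diag_apply, LinearMap.toMatrix_apply, h4, Module.End.mul_apply, h2, sand_apply,
      Module.End.mul_apply, Module.End.mul_apply, LinearMap.smulRight_apply, map_smul, map_smul,
      LinearMap.flip_apply, smul_eq_mul]
  rw [Finset.sum_comm]
  simp only [h1]
  have h5 : ∀ j, ∑ i, P.form (C (b j)) (b i) * P.form (d i) (A (d j)) =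
      ((P.sign : ℤ) : K) * P.form (d j) (P.star (P.star C * A) (b j)) := by
    intro j
    have h6 : P.form (C (b j)) (A (d j)) = ∑ i, P.form (C (b j)) (b i) * P.form (d i) (A (d j)) := by
      conv_lhs => rw [← b.sum_repr (A (d j))]
      rw [map_sum]
      refine Finset.sum_congr rfl fun i _ => ?_
      rw [map_smul, hd', smul_eq_mul, mul_comm]
    rw [← h6, P.form_star, Module.End.mul_apply, P.star_form, P.symm]
  rw [Finset.sum_congr rfl fun j _ => h5 j, ← Finset.mul_sum, ← htr, P.trace_star,
    LinearMap.trace_mul_comm]

end Pool.Agent.H802T
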